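import Mathlib
import Pool.Agent.H.MP_689404_al.B

namespace Pool.Agent.Results.MP_689404_al.Sphere

theorem result (r n : ℕ) (hr : 1 ≤ r) (hn : 1 ≤ n) :
    IsGreatest {k : ℕ | ∃ A : Finset (FreeGroup (Fin r)), (∀ g ∈ A, g.norm = n) ∧
        Function.Injective (FreeGroup.lift (fun g : A => (g : FreeGroup (Fin r)))) ∧ A.card = k}
      (if Even n then (2 * r - 1) ^ (n / 2) else r * (2 * r - 1) ^ (n / 2)) := by
  open Pool.Agent.H.MP_689404_al in
  obtain ⟨c, rfl⟩ : ∃ c, r = c + 1 := ⟨r - 1, by omega⟩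
  have e : 2 * (c + 1) - 1 = 2 * c + 1 := by omega
  split_ifs with h
  · obtain ⟨k, rfl⟩ : ∃ k, n = 2 * (k + 1) := by
      obtain ⟨m, rfl⟩ := h
      exact ⟨m - 1, by omega⟩
    rw [show 2 * (k + 1) / 2 = k + 1 by omega]
    refine ⟨by simpa using low_even (α := Fin (c + 1)) k, ?_⟩
    rintro _ ⟨A, h1, h2, rfl⟩
    rw [e]
    exact up_even c (by simp) k A h1 h2
  · obtain ⟨m, rfl⟩ := Nat.not_even_iff_odd.1 h
    rw [show (2 * m + 1) / 2 = m by omega]
    refine ⟨by simpa using low_odd (α := Fin (c + 1)) m, ?_⟩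
    rintro _ ⟨A, h1, h2, rfl⟩
    rw [e]
    exact up_odd c (by simp) m A h1 h2

end Pool.Agent.Results.MP_689404_al.Sphere
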